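import Pool.Agent.L5helper73.RM.Dir

/-!
# The sum of a Dirichlet series is holomorphic
-/

set_option autoImplicit false

namespace Pool.Agent.L5helper73.RM

open MeasureTheory Finset Filter Topology

/-- the partial sums at the real point `σ` -/
noncomputable def ps (a : ℕ → ℝ) (σ : ℝ) (N : ℕ) : ℝ := ∑ j ∈ range N, ((j : ℝ) + 1) ^ (-σ) * a j

/-- a term of the partial summation -/
noncomputable def dt (a : ℕ → ℝ) (σ : ℝ) (j : ℕ) (s : ℂ) : ℂ :=
  (ps a σ (j + 1) : ℂ) * (((j : ℂ) + 1 + 1) ^ (-(s - σ)) - ((j : ℂ) + 1) ^ (-(s - σ)))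

theorem cast_ne (j : ℕ) : ((j : ℂ) + 1) ≠ 0 := by
  have : ((j : ℂ) + 1) = ((j + 1 : ℕ) : ℂ) := by push_cast; ring
  rw [this]
  exact_mod_cast Nat.succ_ne_zero j

theorem partial_eq (a : ℕ → ℝ) (σ : ℝ) (s : ℂ) (N : ℕ) :
    ∑ j ∈ range N, (a j : ℂ) * ((j : ℂ) + 1) ^ (-s) =
      (ps a σ N : ℂ) * ((N : ℂ) + 1) ^ (-(s - σ)) - ∑ j ∈ range N, dt a σ j s := by
  have h1 : ∀ j : ℕ, (a j : ℂ) * ((j : ℂ) + 1) ^ (-s) =
      ((ps a σ (j + 1) - ps a σ j : ℝ) : ℂ) * ((j : ℂ) + 1) ^ (-(s - σ)) := by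
    intro j
    have e1 : ps a σ (j + 1) - ps a σ j = ((j : ℝ) + 1) ^ (-σ) * a j := by
      unfold ps
      rw [sum_range_succ, add_sub_cancel_left]
    have e2 : (((j : ℝ) + 1) ^ (-σ) : ℝ) = ((j : ℂ) + 1) ^ (-(σ : ℂ)) := by
      rw [Complex.ofReal_cpow (by positivity)]
      push_cast
      rfl
    rw [e1]
    push_cast
    rw [e2]
    have e3 : -s = -(σ : ℂ) + -(s - σ) := by ring
    rw [e3, Complex.cpow_add _ _ (cast_ne j)]
    ring
  induction N with
  | zero => simp [ps]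
  | succ N ih =>
    rw [sum_range_succ, sum_range_succ, ih, h1]
    unfold dt
    push_cast
    ring

theorem norm_dt_le {a : ℕ → ℝ} {σ C : ℝ} (hC : ∀ N, |ps a σ N| ≤ C) {s : ℂ} {η R : ℝ} (hη : 0 < η)
    (hs : σ + η ≤ s.re) (hR : ‖s - σ‖ ≤ R) (j : ℕ) :
    ‖dt a σ j s‖ ≤ C * (R * ((j : ℝ) + 1) ^ (-η - 1)) := by
  have hC0 : 0 ≤ C := (abs_nonneg _).trans (hC 0)
  have hre : (s - σ).re = s.re - σ := by simp
  have hw : 0 < (s - σ).re := by
    rw [hre]
    linarith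
  unfold dt
  rw [norm_mul, Complex.norm_real, Real.norm_eq_abs]
  refine mul_le_mul (hC _) ?_ (norm_nonneg _) hC0
  refine (norm_cpow_succ_sub (s - σ) hw j).trans ?_
  refine mul_le_mul hR ?_ (by positivity) ((norm_nonneg _).trans hR)
  refine Real.rpow_le_rpow_of_exponent_le (by linarith [Nat.cast_nonneg (α := ℝ) j]) ?_
  rw [hre]
  linarith

theorem summable_aux {η : ℝ} (hη : 0 < η) (C R : ℝ) :
    Summable fun j : ℕ => C * (R * ((j : ℝ) + 1) ^ (-η - 1)) := by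
  refine ((?_ : Summable fun j : ℕ => ((j : ℝ) + 1) ^ (-η - 1)).mul_left _).mul_left _
  have h5 := (summable_nat_add_iff 1).2 (Real.summable_nat_rpow.2 (by linarith : -η - 1 < -1))
  refine h5.congr fun j => ?_
  push_cast
  rfl

theorem dirichlet_ana (a : ℕ → ℝ) (σ : ℝ) {C : ℝ} (hC : ∀ N, |ps a σ N| ≤ C) :
    (∀ s : ℂ, σ < s.re → Tendsto (fun N => ∑ j ∈ range N, (a j : ℂ) * ((j : ℂ) + 1) ^ (-s)) atTop
      (𝓝 (-∑' j, dt a σ j s))) ∧
    DifferentiableOn ℂ (fun s => -∑' j, dt a σ j s) {s | σ < s.re} := by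
  have hC0 : 0 ≤ C := (abs_nonneg _).trans (hC 0)
  refine ⟨fun s hs => ?_, fun s₀ hs₀ => ?_⟩
  · have hη : 0 < s.re - σ := by linarith
    have hre : (-(s - σ)).re = -(s.re - σ) := by simp
    have h3 : Summable fun j => dt a σ j s :=
      Summable.of_norm_bounded (summable_aux hη C ‖s - σ‖) fun j =>
        norm_dt_le hC hη (by linarith) le_rfl j
    have h6 : Tendsto (fun j : ℕ => C * ((j : ℝ) + 1) ^ (-(s.re - σ))) atTop (𝓝 (C * 0)) := by
      have := (tendsto_rpow_neg_atTop hη).comp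
        (tendsto_atTop_add_const_right _ 1 (tendsto_natCast_atTop_atTop (R := ℝ)))
      exact this.const_mul C
    rw [mul_zero] at h6
    have h5 : Tendsto (fun N : ℕ => (ps a σ N : ℂ) * ((N : ℂ) + 1) ^ (-(s - σ))) atTop (𝓝 0) := by
      refine squeeze_zero_norm (fun j => ?_) h6
      have e : ((j : ℂ) + 1) = ((((j : ℝ) + 1 : ℝ)) : ℂ) := by push_cast; rfl
      rw [norm_mul, Complex.norm_real, Real.norm_eq_abs, e,
        Complex.norm_cpow_eq_rpow_re_of_pos (by positivity), hre]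
      exact mul_le_mul_of_nonneg_right (hC j) (by positivity)
    simp_rw [partial_eq a σ s]
    have := h5.sub h3.hasSum.tendsto_sum_nat
    rwa [zero_sub] at this
  · have hs₀' : σ < s₀.re := hs₀
    set η : ℝ := (s₀.re - σ) / 2 with hηdef
    have hη : 0 < η := by rw [hηdef]; linarith
    let U : Set ℂ := {s | σ + η < s.re} ∩ {s | ‖s - σ‖ < ‖s₀ - σ‖ + 1}
    have hU : IsOpen U := (isOpen_lt continuous_const Complex.continuous_re).inter
      (isOpen_lt (continuous_id.sub continuous_const).norm continuous_const)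
    have hmem : s₀ ∈ U := ⟨by change σ + η < s₀.re; rw [hηdef]; linarith, by
      change ‖s₀ - σ‖ < ‖s₀ - σ‖ + 1; linarith⟩
    have hd : DifferentiableOn ℂ (fun s => ∑' j, dt a σ j s) U := by
      refine Complex.differentiableOn_tsum_of_summable_norm (summable_aux hη C (‖s₀ - σ‖ + 1)) (fun j => ?_) hU
        fun j s hs => norm_dt_le hC hη (le_of_lt hs.1) (le_of_lt hs.2) j
      unfold dt
      have h1 : ∀ z : ℂ, z ≠ 0 → Differentiable ℂ fun s : ℂ => z ^ (-(s - σ)) := by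
        intro z hz
        exact ((differentiable_id.sub_const (σ : ℂ)).neg).const_cpow (Or.inl hz)
      have hj : ((j : ℂ) + 1 + 1) ≠ 0 := by
        have := cast_ne (j + 1)
        push_cast at this
        exact this
      exact (((h1 _ hj).sub (h1 _ (cast_ne j))).const_mul _).differentiableOn
    exact ((hd.differentiableAt (hU.mem_nhds hmem)).neg).differentiableWithinAt

/-- convergence at all real points to the right of `1 / 2` gives a holomorphic sum -/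
theorem dirichlet_all (a : ℕ → ℝ) (θ : ℝ) (h : ∀ m : ℕ, ∃ L, Tendsto (fun N =>
      ∑ j ∈ range N, ((j : ℝ) + 1) ^ (-(θ + 1 / ((m : ℝ) + 1))) * a j) atTop (𝓝 L)) :
    ∃ F : ℂ → ℂ, DifferentiableOn ℂ F {s | θ < s.re} ∧ ∀ s : ℂ, θ < s.re →
      Tendsto (fun N => ∑ j ∈ range N, (a j : ℂ) * ((j : ℂ) + 1) ^ (-s)) atTop (𝓝 (F s)) := by
  have hb : ∀ m : ℕ, ∃ C : ℝ, ∀ N, |ps a (θ + 1 / ((m : ℝ) + 1)) N| ≤ C := by
    intro m
    obtain ⟨L, hL⟩ := h m
    have hL' : Tendsto (fun N => ps a (θ + 1 / ((m : ℝ) + 1)) N) atTop (𝓝 L) := hL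
    obtain ⟨C, hC⟩ := hL'.isBoundedUnder_le.bddAbove_range.imp fun _ h => h
    obtain ⟨D, hD⟩ := hL'.isBoundedUnder_ge.bddBelow_range
    refine ⟨max C (-D), fun N => ?_⟩
    rw [abs_le]
    have := hC ⟨N, rfl⟩
    have h4 := hD ⟨N, rfl⟩
    constructor
    · linarith [le_max_right C (-D)]
    · exact this.trans (le_max_left _ _)
  have hm : ∀ s : ℂ, θ < s.re → ∃ m : ℕ, θ + 1 / ((m : ℝ) + 1) < s.re := by
    intro s hs
    obtain ⟨m, hm⟩ := exists_nat_one_div_lt (sub_pos.2 hs)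
    exact ⟨m, by linarith⟩
  choose C hC using hb
  let F : ℂ → ℂ := fun s => limUnder atTop fun N => ∑ j ∈ range N, (a j : ℂ) * ((j : ℂ) + 1) ^ (-s)
  have hF : ∀ m : ℕ, ∀ s : ℂ, θ + 1 / ((m : ℝ) + 1) < s.re →
      F s = -∑' j, dt a (θ + 1 / ((m : ℝ) + 1)) j s := fun m s hs =>
    ((dirichlet_ana a _ (hC m)).1 s hs).limUnder_eq
  refine ⟨F, fun s hs => ?_, fun s hs => ?_⟩
  · obtain ⟨m, hm⟩ := hm s hs
    have hU : IsOpen {s : ℂ | θ + 1 / ((m : ℝ) + 1) < s.re} :=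
      isOpen_lt continuous_const Complex.continuous_re
    have h1 := ((dirichlet_ana a _ (hC m)).2.differentiableAt (hU.mem_nhds hm))
    refine DifferentiableAt.differentiableWithinAt ?_
    refine h1.congr_of_eventuallyEq ?_
    filter_upwards [hU.mem_nhds hm] with z hz
    exact hF m z hz
  · obtain ⟨m, hm⟩ := hm s hs
    rw [hF m s hm]
    exact (dirichlet_ana a _ (hC m)).1 s hm

end Pool.Agent.L5helper73.RM
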