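import Pool.Agent.L5helper73.RM.Dir

/-!
# Maximal inequality for logarithmic averages
-/

set_option autoImplicit false

namespace Pool.Agent.L5helper73.RM

open MeasureTheory Finset Filter Topology

/-- logarithmic average -/
noncomputable def lav (v : ℕ → ℝ) (N : ℕ) : ℝ := (1 / Real.log N) * ∑ n ∈ Icc 1 N, (1 / (n : ℝ)) * v n

theorem lav_one : Tendsto (lav fun _ => 1) atTop (𝓝 1) := by
  have e : ∀ N : ℕ, ∑ n ∈ Icc 1 N, (1 / (n : ℝ)) * 1 = (harmonic N : ℝ) := by
    intro N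
    rw [harmonic_eq_sum_Icc]
    push_cast
    exact sum_congr rfl fun n _ => by rw [mul_one, one_div]
  have hl : Tendsto (fun N : ℕ => Real.log (N : ℝ)) atTop atTop :=
    Real.tendsto_log_atTop.comp tendsto_natCast_atTop_atTop
  have h1 : Tendsto (fun N : ℕ => 1 + (Real.log (N : ℝ))⁻¹) atTop (𝓝 (1 + 0)) :=
    tendsto_const_nhds.add (tendsto_inv_atTop_zero.comp hl)
  rw [add_zero] at h1
  refine tendsto_of_tendsto_of_tendsto_of_le_of_le' tendsto_const_nhds h1 ?_ ?_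
  · filter_upwards [eventually_ge_atTop 2] with N hN
    have hN' : (1 : ℝ) < N := by exact_mod_cast hN
    have h0 : 0 < Real.log (N : ℝ) := Real.log_pos hN'
    unfold lav
    rw [e, one_div, inv_mul_eq_div, le_div_iff₀ h0, one_mul]
    refine (Real.log_le_log (by linarith) ?_).trans (log_add_one_le_harmonic N)
    push_cast
    linarith
  · filter_upwards [eventually_ge_atTop 2] with N hN
    have hN' : (1 : ℝ) < N := by exact_mod_cast hN
    have h0 : 0 < Real.log (N : ℝ) := Real.log_pos hN'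
    unfold lav
    rw [e, one_div, inv_mul_eq_div, div_le_iff₀ h0, add_mul, one_mul, inv_mul_cancel₀ h0.ne']
    linarith [harmonic_le_one_add_log N]

theorem lav_add (v w : ℕ → ℝ) (N : ℕ) : lav (fun n => v n + w n) N = lav v N + lav w N := by
  unfold lav
  rw [← mul_add, ← sum_add_distrib]
  congr 1
  exact sum_congr rfl fun n _ => by ring

theorem lav_mul (c : ℝ) (v : ℕ → ℝ) (N : ℕ) : lav (fun n => c * v n) N = c * lav v N := by
  unfold lav
  rw [mul_left_comm, mul_sum _ _ c]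
  congr 1
  exact sum_congr rfl fun n _ => by ring

theorem lav_sum {ι : Type*} (s : Finset ι) (v : ι → ℕ → ℝ) (N : ℕ) :
    lav (fun n => ∑ i ∈ s, v i n) N = ∑ i ∈ s, lav (v i) N := by
  classical
  induction s using Finset.induction_on with
  | empty => simp [lav]
  | insert a s ha ih =>
    rw [sum_insert ha, ← ih, ← lav_add]
    congr 1
    funext n
    rw [sum_insert ha]

theorem lav_mono {v w : ℕ → ℝ} {N : ℕ} (h : ∀ n, 1 ≤ n → n ≤ N → v n ≤ w n) : lav v N ≤ lav w N := by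
  unfold lav
  refine mul_le_mul_of_nonneg_left ?_ (one_div_nonneg.2 (Real.log_natCast_nonneg N))
  refine sum_le_sum fun n hn => ?_
  rw [mem_Icc] at hn
  exact mul_le_mul_of_nonneg_left (h n hn.1 hn.2) (by positivity)

/-- the sequences `u i` are orthonormal on logarithmic average -/
structure LOrth (u : ℕ → ℕ → ℝ) : Prop where
  one : ∀ i, Tendsto (lav fun n => u i n * u i n) atTop (𝓝 1)
  orth : ∀ i j, i ≠ j → Tendsto (lav fun n => u i n * u j n) atTop (𝓝 0)

theorem LOrth.bs_sq {u : ℕ → ℕ → ℝ} (h : LOrth u) (c : ℕ → ℝ) (a m : ℕ) :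
    Tendsto (lav fun n => (bs (fun i => c i * u i n) a m) ^ 2) atTop (𝓝 (bs (fun i => c i ^ 2) a m)) := by
  have e : (lav fun n => (bs (fun i => c i * u i n) a m) ^ 2) = fun N =>
      ∑ i ∈ range m, ∑ j ∈ range m, (c (a + i) * c (a + j)) * lav (fun n => u (a + i) n * u (a + j) n) N := by
    funext N
    simp_rw [← lav_mul, ← lav_sum]
    congr 1
    funext n
    unfold bs
    rw [sq, sum_mul_sum]
    exact sum_congr rfl fun i _ => sum_congr rfl fun j _ => by ring
  rw [e]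
  unfold bs
  refine tendsto_finsetSum _ fun i hi => ?_
  have h1 : c (a + i) ^ 2 = ∑ j ∈ range m, (c (a + i) * c (a + j)) * (if i = j then 1 else 0) := by
    simp only [mul_ite, mul_one, mul_zero]
    rw [sum_ite_eq, if_pos hi, sq]
  change Tendsto _ _ (𝓝 (c (a + i) ^ 2))
  rw [h1]
  refine tendsto_finsetSum _ fun j _ => ?_
  refine Tendsto.const_mul _ ?_
  split_ifs with hij
  · subst hij
    exact h.one _
  · exact h.orth _ _ (by omega)

theorem LOrth.M_le {u : ℕ → ℕ → ℝ} (h : LOrth u) (c : ℕ → ℝ) (k : ℕ) :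
    Tendsto (lav fun n => M (fun i => c i * u i n) 0 k) atTop
      (𝓝 ((k : ℝ) ^ 2 * ∑ i ∈ range (2 ^ k), c i ^ 2)) := by
  have e : (lav fun n => M (fun i => c i * u i n) 0 k) = fun N =>
      (k : ℝ) * ∑ l ∈ range k, ∑ m ∈ range (2 ^ (k - l)),
        lav (fun n => (bs (fun i => c i * u i n) (0 + m * 2 ^ l) (2 ^ l)) ^ 2) N := by
    funext N
    simp_rw [← lav_sum, ← lav_mul]
    rfl
  rw [e]
  have e2 : (k : ℝ) ^ 2 * ∑ i ∈ range (2 ^ k), c i ^ 2 = (k : ℝ) * ∑ l ∈ range k,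
      ∑ m ∈ range (2 ^ (k - l)), bs (fun i => c i ^ 2) (0 + m * 2 ^ l) (2 ^ l) := by
    have h1 : ∀ l ∈ range k, ∑ m ∈ range (2 ^ (k - l)), bs (fun i => c i ^ 2) (0 + m * 2 ^ l) (2 ^ l) =
        ∑ i ∈ range (2 ^ k), c i ^ 2 := by
      intro l hl
      rw [sum_blocks (fun i => c i ^ 2) 0 (mem_range.1 hl).le]
      unfold bs
      exact sum_congr rfl fun i _ => by rw [zero_add]
    rw [sum_congr rfl h1, sum_const, card_range, nsmul_eq_mul]
    ring
  rw [e2]
  refine Tendsto.const_mul _ (tendsto_finsetSum _ fun l _ => tendsto_finsetSum _ fun m _ => h.bs_sq c _ _)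

/-- the maximal inequality for logarithmic averages -/
theorem LOrth.maximal {u : ℕ → ℕ → ℝ} (h : LOrth u) (c : ℕ → ℂ) (k : ℕ) {δ : ℝ} (hδ : 0 < δ) :
    ∃ N₀ : ℕ, ∀ N, N₀ ≤ N → ∀ J : ℕ → ℕ, (∀ n, J n < 2 ^ k) →
      (1 / Real.log N) * ∑ n ∈ Icc 1 N, (1 / (n : ℝ)) * ‖∑ i ∈ range (J n), c i * (u i n : ℂ)‖ ^ 2 ≤
        (k : ℝ) ^ 2 * ∑ i ∈ range (2 ^ k), ‖c i‖ ^ 2 + δ := by
  have h1 := (h.M_le (fun i => (c i).re) k).add (h.M_le (fun i => (c i).im) k)
  have h2 := (h1.eventually (gt_mem_nhds (lt_add_of_pos_right _ hδ)))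
  obtain ⟨N₀, hN₀⟩ := eventually_atTop.1 h2
  refine ⟨N₀, fun N hN J hJ => ?_⟩
  have h3 := (hN₀ N hN).le
  rw [← lav_add, ← mul_add, ← sum_add_distrib] at h3
  have e : ∀ i, (c i).re ^ 2 + (c i).im ^ 2 = ‖c i‖ ^ 2 := by
    intro i
    rw [← Complex.normSq_eq_norm_sq, Complex.normSq_apply]
    ring
  simp_rw [e] at h3
  refine le_trans ?_ h3
  change lav _ N ≤ _
  refine lav_mono fun n _ _ => ?_
  have h4 := sq_bs_le (fun i => (c i).re * u i n) 0 k (J n) (hJ n)
  have h5 := sq_bs_le (fun i => (c i).im * u i n) 0 k (J n) (hJ n)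
  refine le_trans (le_of_eq ?_) (add_le_add h4 h5)
  rw [← Complex.normSq_eq_norm_sq, Complex.normSq_apply]
  unfold bs
  simp only [zero_add, Complex.re_sum, Complex.im_sum, Complex.re_mul_ofReal, Complex.im_mul_ofReal]
  ring

end Pool.Agent.L5helper73.RM
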