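import Pool.Agent.L5helper73.RM.Prob

/-!
# Dirichlet series and square root cancellation with bounded orthogonal coefficients
-/

set_option autoImplicit false

namespace Pool.Agent.L5helper73.RM

open MeasureTheory Finset Filter Topology

theorem norm_cpow_succ_sub (w : ℂ) (hw : 0 < w.re) (j : ℕ) :
    ‖((j : ℂ) + 1 + 1) ^ (-w) - ((j : ℂ) + 1) ^ (-w)‖ ≤ ‖w‖ * ((j : ℝ) + 1) ^ (-w.re - 1) := by
  have hj : (0 : ℝ) < (j : ℝ) + 1 := by positivity
  have hw0 : -w ≠ 0 := by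
    intro h
    have : w = 0 := neg_eq_zero.1 h
    rw [this] at hw
    simp at hw
  have h := norm_image_sub_le_of_norm_deriv_le_segment' (a := (j : ℝ) + 1) (b := (j : ℝ) + 1 + 1)
    (f := fun y : ℝ => (y : ℂ) ^ (-w)) (f' := fun y : ℝ => (-w) * (y : ℂ) ^ (-w - 1))
    (C := ‖w‖ * ((j : ℝ) + 1) ^ (-w.re - 1)) (fun x hx => ?_) (fun x hx => ?_) ((j : ℝ) + 1 + 1)
    ⟨by linarith, le_rfl⟩
  · have e : (j : ℝ) + 1 + 1 - ((j : ℝ) + 1) = 1 := by ring
    rw [e, mul_one] at h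
    push_cast at h
    exact h
  · exact (hasDerivAt_ofReal_cpow_const (by linarith [hx.1]) hw0).hasDerivWithinAt
  · have hx0 : 0 < x := by linarith [hx.1]
    rw [norm_mul, norm_neg, Complex.norm_cpow_eq_rpow_re_of_pos hx0]
    have e : (-w - 1).re = -w.re - 1 := by simp
    rw [e]
    refine mul_le_mul_of_nonneg_left ?_ (norm_nonneg _)
    exact Real.rpow_le_rpow_of_nonpos hj hx.1 (by linarith)

/-- convergence of Dirichlet series to the right -/
theorem dirichlet (a : ℕ → ℝ) (σ : ℝ) {L : ℝ}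
    (h : Tendsto (fun N => ∑ j ∈ range N, ((j : ℝ) + 1) ^ (-σ) * a j) atTop (𝓝 L)) (s : ℂ)
    (hs : σ < s.re) :
    ∃ L' : ℂ, Tendsto (fun N => ∑ j ∈ range N, (a j : ℂ) * ((j : ℂ) + 1) ^ (-s)) atTop (𝓝 L') := by
  set w : ℂ := s - σ with hwdef
  have hw : 0 < w.re := by
    rw [hwdef, Complex.sub_re, Complex.ofReal_re]
    linarith
  set A : ℕ → ℝ := fun N => ∑ j ∈ range N, ((j : ℝ) + 1) ^ (-σ) * a j with hA
  set g : ℕ → ℂ := fun j => ((j : ℂ) + 1) ^ (-w) with hg
  have h1 : ∀ j : ℕ, (a j : ℂ) * ((j : ℂ) + 1) ^ (-s) = ((A (j + 1) - A j : ℝ) : ℂ) * g j := by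
    intro j
    have e1 : A (j + 1) - A j = ((j : ℝ) + 1) ^ (-σ) * a j := by
      rw [hA]
      simp only
      rw [sum_range_succ, add_sub_cancel_left]
    have hj : ((j : ℂ) + 1) ≠ 0 := by
      have : ((j : ℂ) + 1) = ((j + 1 : ℕ) : ℂ) := by push_cast; ring
      rw [this]
      exact_mod_cast Nat.succ_ne_zero j
    have e2 : (((j : ℝ) + 1) ^ (-σ) : ℝ) = ((j : ℂ) + 1) ^ (-(σ : ℂ)) := by
      rw [Complex.ofReal_cpow (by positivity)]
      push_cast
      rfl
    rw [e1, hg]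
    simp only
    push_cast
    rw [e2]
    have e3 : -s = -(σ : ℂ) + -w := by
      rw [hwdef]
      ring
    rw [e3, Complex.cpow_add _ _ hj]
    ring
  have h2 : ∀ N, ∑ j ∈ range N, (a j : ℂ) * ((j : ℂ) + 1) ^ (-s) =
      (A N : ℂ) * g N - ∑ j ∈ range N, (A (j + 1) : ℂ) * (g (j + 1) - g j) := by
    intro N
    induction N with
    | zero => simp [hA]
    | succ N ih =>
      rw [sum_range_succ, sum_range_succ, ih, h1]
      push_cast
      ring
  obtain ⟨C, hC⟩ : ∃ C : ℝ, ∀ N, |A N| ≤ C := by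
    obtain ⟨C, hC⟩ := h.isBoundedUnder_le.bddAbove_range.imp fun _ h => h
    obtain ⟨D, hD⟩ := h.isBoundedUnder_ge.bddBelow_range
    refine ⟨max C (-D), fun N => ?_⟩
    rw [abs_le]
    have := hC ⟨N, rfl⟩
    have h4 := hD ⟨N, rfl⟩
    constructor
    · linarith [le_max_right C (-D)]
    · exact this.trans (le_max_left _ _)
  have hC0 : 0 ≤ C := (abs_nonneg _).trans (hC 0)
  have h3 : Summable fun j : ℕ => (A (j + 1) : ℂ) * (g (j + 1) - g j) := by
    have h4 : Summable fun j : ℕ => C * (‖w‖ * ((j : ℝ) + 1) ^ (-w.re - 1)) := by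
      refine ((?_ : Summable fun j : ℕ => ((j : ℝ) + 1) ^ (-w.re - 1)).mul_left _).mul_left _
      have h5 := (summable_nat_add_iff 1).2 (Real.summable_nat_rpow.2 (by linarith : -w.re - 1 < -1))
      refine h5.congr fun j => ?_
      push_cast
      rfl
    refine Summable.of_norm_bounded h4 fun j => ?_
    rw [norm_mul, Complex.norm_real, Real.norm_eq_abs]
    refine mul_le_mul (hC _) ?_ (norm_nonneg _) hC0
    have := norm_cpow_succ_sub w hw j
    rw [hg]
    simp only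
    push_cast
    exact this
  have h5 : Tendsto g atTop (𝓝 0) := by
    have h6 : Tendsto (fun j : ℕ => ((j : ℝ) + 1) ^ (-w.re)) atTop (𝓝 0) := by
      have := (tendsto_rpow_neg_atTop hw).comp
        (tendsto_atTop_add_const_right _ 1 (tendsto_natCast_atTop_atTop (R := ℝ)))
      exact this
    refine squeeze_zero_norm (fun j => ?_) h6
    rw [hg]
    simp only
    have e : ((j : ℂ) + 1) = ((((j : ℝ) + 1 : ℝ)) : ℂ) := by push_cast; rfl
    rw [e, Complex.norm_cpow_eq_rpow_re_of_pos (by positivity)]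
    simp
  refine ⟨(L : ℂ) * 0 - ∑' j, (A (j + 1) : ℂ) * (g (j + 1) - g j), ?_⟩
  simp_rw [h2]
  exact ((Complex.continuous_ofReal.tendsto L).comp h |>.mul h5).sub h3.hasSum.tendsto_sum_nat

theorem summable_pow_log {σ : ℝ} (hσ : 1 / 2 < σ) :
    Summable fun j : ℕ => (((j : ℝ) + 1) ^ (-σ)) ^ 2 * (Real.log (j + 2)) ^ 2 := by
  obtain ⟨ε, hε, hε'⟩ : ∃ ε : ℝ, 0 < ε ∧ 1 < 2 * σ - 2 * ε := ⟨(σ - 1 / 2) / 2, by linarith, by linarith⟩
  have h1 : Summable fun j : ℕ => ((2 : ℝ) ^ ε / ε) ^ 2 * ((j : ℝ) + 1) ^ (-(2 * σ - 2 * ε)) := by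
    refine Summable.mul_left _ ?_
    have h5 := (summable_nat_add_iff 1).2 (Real.summable_nat_rpow.2
      (by linarith : -(2 * σ - 2 * ε) < -1))
    refine h5.congr fun j => ?_
    push_cast
    rfl
  refine Summable.of_nonneg_of_le (fun j => by positivity) (fun j => ?_) h1
  have hj : (0 : ℝ) < (j : ℝ) + 1 := by positivity
  have h2 : Real.log (j + 2) ≤ (2 : ℝ) ^ ε / ε * ((j : ℝ) + 1) ^ ε := by
    have h3 := Real.log_le_rpow_div (x := (j : ℝ) + 2) (by positivity) hε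
    refine h3.trans ?_
    rw [div_mul_eq_mul_div, ← Real.mul_rpow (by norm_num) hj.le]
    refine div_le_div_of_nonneg_right (Real.rpow_le_rpow (by positivity) ?_ hε.le) hε.le
    linarith [Nat.cast_nonneg (α := ℝ) j]
  have h0 : 0 ≤ Real.log ((j : ℝ) + 2) := Real.log_nonneg (by linarith [Nat.cast_nonneg (α := ℝ) j])
  have h4 : (Real.log ((j : ℝ) + 2)) ^ 2 ≤ ((2 : ℝ) ^ ε / ε * ((j : ℝ) + 1) ^ ε) ^ 2 :=
    pow_le_pow_left₀ h0 h2 2
  refine (mul_le_mul_of_nonneg_left h4 (sq_nonneg _)).trans (le_of_eq ?_)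
  rw [mul_pow, ← Real.rpow_natCast ((((j : ℝ) + 1)) ^ (-σ)) 2, ← Real.rpow_natCast (((j : ℝ) + 1) ^ ε) 2,
    ← Real.rpow_mul hj.le, ← Real.rpow_mul hj.le, mul_left_comm, ← Real.rpow_add hj]
  congr 2
  push_cast
  ring

theorem summable_log {ε : ℝ} (hε : 0 < ε) :
    Summable fun n : ℕ => 1 / (((n : ℝ) + 1) * (Real.log (n + 2)) ^ (1 + 2 * ε)) := by
  have hl : ∀ n : ℕ, 0 < Real.log ((n : ℝ) + 2) := fun n =>
    Real.log_pos (by linarith [Nat.cast_nonneg (α := ℝ) n])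
  refine (summable_condensed_iff_of_nonneg (fun n => ?_) (fun m n _ hmn => ?_)).1 ?_
  · have := hl n
    positivity
  · have h1 := hl m
    have h2 := hl n
    refine one_div_le_one_div_of_le (by positivity) ?_
    have h3 : (m : ℝ) ≤ n := by exact_mod_cast hmn
    refine mul_le_mul (by linarith) ?_ (by positivity) (by positivity)
    exact Real.rpow_le_rpow h1.le (Real.log_le_log (by positivity) (by linarith)) (by linarith)
  · have hlog2 : 0 < Real.log 2 := Real.log_pos (by norm_num)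
    have h1 : Summable fun k : ℕ => (1 / (Real.log 2) ^ (1 + 2 * ε)) *
        (1 / ((k : ℝ)) ^ (1 + 2 * ε)) :=
      (Real.summable_one_div_nat_rpow.2 (by linarith)).mul_left _
    refine (summable_nat_add_iff 1).1 ?_
    have h1' := (summable_nat_add_iff 1).2 h1
    refine Summable.of_nonneg_of_le (fun k => ?_) (fun k => ?_) h1'
    · have := hl (2 ^ (k + 1))
      positivity
    · have hk : (0 : ℝ) < ((k + 1 : ℕ) : ℝ) := by positivity
      have h2 := hl (2 ^ (k + 1))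
      have h3 : (((k + 1 : ℕ) : ℝ) * Real.log 2) ≤ Real.log (((2 ^ (k + 1) : ℕ) : ℝ) + 2) := by
        rw [← Real.log_pow]
        refine Real.log_le_log (by positivity) ?_
        push_cast
        linarith
      have h4 : (((k + 1 : ℕ) : ℝ) * Real.log 2) ^ (1 + 2 * ε) ≤
          (Real.log (((2 ^ (k + 1) : ℕ) : ℝ) + 2)) ^ (1 + 2 * ε) :=
        Real.rpow_le_rpow (by positivity) h3 (by linarith)
      have h5 : (1 / (Real.log 2) ^ (1 + 2 * ε)) * (1 / (((k + 1 : ℕ) : ℝ)) ^ (1 + 2 * ε)) =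
          1 / (((k + 1 : ℕ) : ℝ) * Real.log 2) ^ (1 + 2 * ε) := by
        rw [Real.mul_rpow hk.le hlog2.le]
        field_simp
      rw [h5]
      have h6 : (2 : ℝ) ^ (k + 1) * (1 / ((((2 ^ (k + 1) : ℕ) : ℝ) + 1) *
          (Real.log (((2 ^ (k + 1) : ℕ) : ℝ) + 2)) ^ (1 + 2 * ε))) ≤
          1 / (Real.log (((2 ^ (k + 1) : ℕ) : ℝ) + 2)) ^ (1 + 2 * ε) := by
        rw [mul_one_div, div_le_div_iff₀ (by positivity) (by positivity), one_mul]
        refine mul_le_mul_of_nonneg_right ?_ (by positivity)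
        push_cast
        linarith
      exact h6.trans (one_div_le_one_div_of_le (by positivity) h4)

end Pool.Agent.L5helper73.RM
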