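import Pool.Agent.L5helper73.RM.Ana

/-!
# Almost sure convergence for bounded orthogonal random variables: complex coefficients, square root law,
Dirichlet series
-/

set_option autoImplicit false

namespace Pool.Agent.L5helper73.RM

open MeasureTheory Finset Filter Topology

section
variable {Ω : Type*} [MeasurableSpace Ω] {P : Measure Ω} [IsProbabilityMeasure P] {Y : ℕ → Ω → ℝ}

/-- complex coefficients -/
theorem Orth.ae_tendsto_complex (h : Orth P Y) {c : ℕ → ℂ}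
    (hc : Summable fun j : ℕ => ‖c j‖ ^ 2 * (Real.log (j + 2)) ^ 2) :
    ∀ᵐ ω ∂P, ∃ L : ℂ, Tendsto (fun N => ∑ j ∈ range N, c j * (Y j ω : ℂ)) atTop (𝓝 L) := by
  have h1 : Summable fun j : ℕ => (c j).re ^ 2 * (Real.log (j + 2)) ^ 2 := by
    refine Summable.of_nonneg_of_le (fun j => by positivity) (fun j => ?_) hc
    refine mul_le_mul_of_nonneg_right ?_ (sq_nonneg _)
    rw [← sq_abs]
    exact pow_le_pow_left₀ (abs_nonneg _) (Complex.abs_re_le_norm _) 2
  have h2 : Summable fun j : ℕ => (c j).im ^ 2 * (Real.log (j + 2)) ^ 2 := by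
    refine Summable.of_nonneg_of_le (fun j => by positivity) (fun j => ?_) hc
    refine mul_le_mul_of_nonneg_right ?_ (sq_nonneg _)
    rw [← sq_abs]
    exact pow_le_pow_left₀ (abs_nonneg _) (Complex.abs_im_le_norm _) 2
  filter_upwards [h.ae_tendsto h1, h.ae_tendsto h2] with ω hω1 hω2
  obtain ⟨A, hA⟩ := hω1
  obtain ⟨B, hB⟩ := hω2
  refine ⟨A + B * Complex.I, ?_⟩
  have h3 := ((Complex.continuous_ofReal.tendsto A).comp hA).add
    (((Complex.continuous_ofReal.tendsto B).comp hB).mul_const Complex.I)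
  refine h3.congr fun N => ?_
  simp only [Function.comp_apply]
  push_cast
  rw [sum_mul, ← sum_add_distrib]
  refine sum_congr rfl fun j _ => ?_
  conv_rhs => rw [← Complex.re_add_im (c j)]
  ring

/-- the square root law -/
theorem Orth.ae_sqrt (h : Orth P Y) {c : ℕ → ℂ} (hc : ∀ j, ‖c j‖ ≤ 1) :
    ∀ᵐ ω ∂P, ∀ ε : ℝ, 0 < ε → Tendsto (fun N : ℕ => ‖∑ j ∈ range N, c j * (Y j ω : ℂ)‖ /
      (√(N + 1) * (Real.log (N + 2)) ^ (3 / 2 + ε))) atTop (𝓝 0) := by
  have hl : ∀ n : ℕ, 0 < Real.log ((n : ℝ) + 2) := fun n =>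
    Real.log_pos (by linarith [Nat.cast_nonneg (α := ℝ) n])
  -- one exponent
  have key : ∀ ε : ℝ, 0 < ε → ∀ d : ℕ → ℝ, (∀ j, |d j| ≤ 1) → ∀ᵐ ω ∂P,
      Tendsto (fun N : ℕ => (∑ j ∈ range N, d j * Y j ω) /
        (√(N + 1) * (Real.log (N + 2)) ^ (3 / 2 + ε))) atTop (𝓝 0) := by
    intro ε hε d hd
    have hB0 : ∀ n : ℕ, 0 < √((n : ℝ) + 1) * (Real.log (n + 2)) ^ (3 / 2 + ε) := fun n => by
      have := hl n
      positivity
    refine h.ae_law (c := d) (B := fun N : ℕ => √((N : ℝ) + 1) * (Real.log (N + 2)) ^ (3 / 2 + ε))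
      ?_ hB0 ?_ ?_
    · intro m n hmn
      have h3 : (m : ℝ) ≤ n := by exact_mod_cast hmn
      have h1 := hl m
      refine mul_le_mul (Real.sqrt_le_sqrt (by linarith)) ?_ (by positivity) (by positivity)
      exact Real.rpow_le_rpow h1.le (Real.log_le_log (by positivity) (by linarith)) (by linarith)
    · refine Tendsto.atTop_mul_atTop₀ ?_ ?_
      · exact Real.tendsto_sqrt_atTop.comp
          (tendsto_atTop_add_const_right _ 1 (tendsto_natCast_atTop_atTop (R := ℝ)))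
      · refine (tendsto_rpow_atTop (by linarith)).comp (Real.tendsto_log_atTop.comp
          (tendsto_atTop_add_const_right _ 2 (tendsto_natCast_atTop_atTop (R := ℝ))))
    · refine Summable.of_nonneg_of_le (fun j => by positivity) (fun j => ?_) (summable_log hε)
      have h1 := hl j
      have hj : (0 : ℝ) < (j : ℝ) + 1 := by positivity
      have h2 : (d j) ^ 2 ≤ 1 := by
        rw [← sq_abs]
        exact pow_le_one₀ (abs_nonneg _) (hd j)
      have h3 : (√((j : ℝ) + 1) * (Real.log (j + 2)) ^ (3 / 2 + ε)) ^ 2 =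
          (((j : ℝ) + 1) * (Real.log (j + 2)) ^ (1 + 2 * ε)) * (Real.log (j + 2)) ^ 2 := by
        rw [mul_pow, Real.sq_sqrt hj.le, ← Real.rpow_natCast ((Real.log ((j : ℝ) + 2)) ^ (3 / 2 + ε)) 2,
          ← Real.rpow_mul h1.le, mul_assoc, ← Real.rpow_natCast (Real.log ((j : ℝ) + 2)) 2,
          ← Real.rpow_add h1]
        congr 2
        push_cast
        ring
      rw [div_pow, h3, div_mul_eq_mul_div, div_le_div_iff₀ (by positivity) (by positivity), one_mul]
      have h4 : 0 ≤ (((j : ℝ) + 1) * (Real.log (j + 2)) ^ (1 + 2 * ε)) * (Real.log (j + 2)) ^ 2 := by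
        positivity
      nlinarith
  have h1 : ∀ m : ℕ, ∀ᵐ ω ∂P,
      Tendsto (fun N : ℕ => (∑ j ∈ range N, (c j).re * Y j ω) /
        (√(N + 1) * (Real.log (N + 2)) ^ (3 / 2 + 1 / ((m : ℝ) + 1)))) atTop (𝓝 0) := fun m =>
    key _ (by positivity) _ fun j => (Complex.abs_re_le_norm _).trans (hc j)
  have h2 : ∀ m : ℕ, ∀ᵐ ω ∂P,
      Tendsto (fun N : ℕ => (∑ j ∈ range N, (c j).im * Y j ω) /
        (√(N + 1) * (Real.log (N + 2)) ^ (3 / 2 + 1 / ((m : ℝ) + 1)))) atTop (𝓝 0) := fun m =>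
    key _ (by positivity) _ fun j => (Complex.abs_im_le_norm _).trans (hc j)
  filter_upwards [ae_all_iff.2 h1, ae_all_iff.2 h2] with ω hω1 hω2 ε hε
  obtain ⟨m, hm⟩ := exists_nat_one_div_lt hε
  have h3 := (hω1 m).abs.add (hω2 m).abs
  rw [abs_zero, add_zero] at h3
  refine squeeze_zero' (Eventually.of_forall fun N => div_nonneg (norm_nonneg _)
    (mul_nonneg (Real.sqrt_nonneg _) (Real.rpow_nonneg (hl N).le _))) ?_ h3
  filter_upwards [eventually_ge_atTop 1] with N hN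
  have hN' : (1 : ℝ) ≤ N := by exact_mod_cast hN
  have h0 := hl N
  have hle : 1 ≤ Real.log ((N : ℝ) + 2) := by
    rw [Real.le_log_iff_exp_le (by positivity)]
    linarith [Real.exp_one_lt_d9]
  have hB : √((N : ℝ) + 1) * (Real.log (N + 2)) ^ (3 / 2 + 1 / ((m : ℝ) + 1)) ≤
      √((N : ℝ) + 1) * (Real.log (N + 2)) ^ (3 / 2 + ε) :=
    mul_le_mul_of_nonneg_left (Real.rpow_le_rpow_of_exponent_le hle (by linarith)) (Real.sqrt_nonneg _)
  have hB0 : 0 < √((N : ℝ) + 1) * (Real.log (N + 2)) ^ (3 / 2 + 1 / ((m : ℝ) + 1)) := by positivity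
  rw [abs_div, abs_div, ← add_div, abs_of_pos hB0]
  refine div_le_div₀ (by positivity) ?_ hB0 hB
  have e : ∑ j ∈ range N, c j * (Y j ω : ℂ) = ((∑ j ∈ range N, (c j).re * Y j ω : ℝ) : ℂ) +
      ((∑ j ∈ range N, (c j).im * Y j ω : ℝ) : ℂ) * Complex.I := by
    push_cast
    rw [sum_mul, ← sum_add_distrib]
    refine sum_congr rfl fun j _ => ?_
    conv_lhs => rw [← Complex.re_add_im (c j)]
    ring
  rw [e]
  refine (norm_add_le _ _).trans ?_
  rw [norm_mul, Complex.norm_I, mul_one, Complex.norm_real, Complex.norm_real, Real.norm_eq_abs,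
    Real.norm_eq_abs]

/-- Dirichlet series -/
theorem Orth.ae_dirichlet (h : Orth P Y) : ∀ᵐ ω ∂P, ∃ F : ℂ → ℂ,
    DifferentiableOn ℂ F {s | 1 / 2 < s.re} ∧ ∀ s : ℂ, 1 / 2 < s.re →
      Tendsto (fun N => ∑ j ∈ range N, (Y j ω : ℂ) * ((j : ℂ) + 1) ^ (-s)) atTop (𝓝 (F s)) := by
  have h1 : ∀ m : ℕ, ∀ᵐ ω ∂P, ∃ L, Tendsto (fun N =>
      ∑ j ∈ range N, ((j : ℝ) + 1) ^ (-((1 / 2 : ℝ) + 1 / ((m : ℝ) + 1))) * Y j ω) atTop (𝓝 L) := by
    intro m
    refine h.ae_tendsto (summable_pow_log ?_)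
    have : (0 : ℝ) < 1 / ((m : ℝ) + 1) := by positivity
    linarith
  filter_upwards [ae_all_iff.2 h1] with ω hω
  exact dirichlet_all (fun j => Y j ω) (1 / 2) hω

end

end Pool.Agent.L5helper73.RM
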