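import Pool.Agent.L5helper13.FurTwo
import Pool.Agent.L5helper73.RM.Avg
import Pool.Agent.L5helper73.RM.Law

/-!
# Furstenberg systems of aperiodic multiplicative functions: almost sure convergence
-/

set_option autoImplicit false

namespace Pool.Agent.L5helper73.RM

open MeasureTheory Finset Filter Topology
open Pool.Agent.Results.MP_4a7640_nt.UniformGap (Val X shift seq IsFurstenbergSystem IsMult Aperiodic val_le seq_nat)
open Pool.Agent.R512.P (MS pairMW)
open Pool.Agent.L5helper13 (iv iv_cast iv_ms iv_noReal val_cases fur_one fur_two)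

theorem log_two {f : ℕ → Val} (hf : IsMult f) (ha : Aperiodic f) {a b : ℕ} (hab : a ≠ b) :
    Tendsto (lav fun n => (f (n + a) : ℝ) * (f (n + b) : ℝ)) atTop (𝓝 0) := by
  set g : ℕ → ℤ := fun n => iv (f n) with hg
  have hms := iv_ms hf
  have hnr := iv_noReal ha
  set ψ : ℕ → ℂ := fun n => ((g (n + a) * g (n + b) : ℤ) : ℂ) with hψ
  have hg1 : ∀ n, |g n| ≤ 1 := by
    intro n
    simp only [hg, iv]
    split_ifs <;> simp
  have hψ1 : ∀ n, ‖ψ n‖ ≤ 1 := by
    intro n
    simp only [hψ]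
    rw [Complex.norm_intCast]
    have h1 : |g (n + a) * g (n + b)| ≤ 1 := by
      rw [abs_mul]
      exact mul_le_one₀ (hg1 _) (abs_nonneg _) (hg1 _)
    exact_mod_cast h1
  have hz : Tendsto (fun N : ℕ => ((1 / Real.log (N : ℝ) : ℝ) : ℂ) * ∑ n ∈ Icc 1 N, ψ n / (n : ℂ)) atTop (𝓝 0) := by
    rw [Metric.tendsto_atTop]
    intro ε hε
    have h1 := pairMW hms hnr hms a b hab 1 le_rfl (fun _ => 1) (fun _ => by simp) (fun _ => rfl) (ε / 8) (by positivity)
    obtain ⟨X₀, hX₀⟩ := Pool.Agent.Y958.E.logC ψ (fun _ => 0) hψ1 (fun _ => le_rfl) 0 (ε / 8) (by norm_num) (by positivity) (by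
      refine Pool.Agent.Y958.U.LZ_sub (fun n hn => ?_) h1
      have hn : (1 - 0) * ∑ m ∈ Icc 1 n, (0 : ℝ) + ε / 8 * n < ‖∑ m ∈ Icc 1 n, ψ m‖ := hn
      show ε / 8 * n < |∑ m ∈ Icc 1 n, (1 : ℝ) * ((g (m + a) : ℤ) : ℝ) * ((g (m + b) : ℤ) : ℝ)|
      have e : ∑ m ∈ Icc 1 n, ψ m = ((∑ m ∈ Icc 1 n, (1 : ℝ) * ((g (m + a) : ℤ) : ℝ) * ((g (m + b) : ℤ) : ℝ) : ℝ) : ℂ) := by
        push_cast
        apply sum_congr rfl
        intro m _
        simp only [hψ]
        push_cast
        ring
      rw [e, Complex.norm_real, Real.norm_eq_abs] at hn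
      simpa using hn)
    refine ⟨X₀ + 3, fun N hN => ?_⟩
    have h3 := hX₀ N (by omega)
    simp only [sum_const_zero, mul_zero, zero_add, zero_div] at h3
    have hlog : 0 < Real.log (N : ℝ) := Real.log_pos (by exact_mod_cast (by omega : 1 < N))
    rw [dist_zero_right, norm_mul, Complex.norm_real, Real.norm_eq_abs, abs_of_pos (by positivity)]
    calc 1 / Real.log (N : ℝ) * ‖∑ n ∈ Icc 1 N, ψ n / (n : ℂ)‖ ≤
          1 / Real.log (N : ℝ) * (4 * (ε / 8) * Real.log (N : ℝ)) := by gcongr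
      _ = ε / 2 := by field_simp; ring
      _ < ε := by linarith
  have e : (fun N : ℕ => ((1 / Real.log (N : ℝ) : ℝ) : ℂ) * ∑ n ∈ Icc 1 N, ψ n / (n : ℂ)) =
      fun N => ((lav (fun n => (f (n + a) : ℝ) * (f (n + b) : ℝ)) N : ℝ) : ℂ) := by
    funext N
    unfold lav
    push_cast
    congr 1
    refine sum_congr rfl fun n _ => ?_
    simp only [hψ, hg]
    rw [← iv_cast (f (n + a)), ← iv_cast (f (n + b))]
    push_cast
    ring
  rw [e] at hz
  have h9 := (Complex.continuous_re.tendsto _).comp hz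
  rw [Complex.zero_re] at h9
  exact h9.congr fun N => by simp only [Function.comp_apply, Complex.ofReal_re]

theorem sq_one {f : ℕ → Val} (hf : IsMult f) {n : ℕ} (hn : n ≠ 0) : (f n : ℝ) * (f n : ℝ) = 1 := by
  rcases val_cases (f n) with h | h | h
  · rw [h]; norm_num
  · exact absurd h (hf.1 n (by omega))
  · rw [h]; norm_num

/-- translates of `f` are orthonormal on logarithmic average -/
theorem lorth {f : ℕ → Val} (hf : IsMult f) (ha : Aperiodic f) {b : ℕ → ℕ} (hb : Function.Injective b) :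
    LOrth fun i n => (f (n + b i) : ℝ) where
  one i := by
    refine lav_one.congr fun N => ?_
    unfold lav
    congr 1
    refine sum_congr rfl fun n hn => ?_
    rw [mem_Icc] at hn
    simp only
    rw [sq_one hf (by omega)]
  orth i j hij := log_two hf ha fun h => hij (hb h)

/-- distinct coordinates are orthogonal -/
theorem orth_fur {f : ℕ → Val} (hf : IsMult f) (ha : Aperiodic f) {μ : Measure X}
    (hμ : IsFurstenbergSystem f μ) {b : ℕ → ℤ} (hb : Function.Injective b) :
    Orth μ fun j x => (x (b j) : ℝ) where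
  meas k := measurable_subtype_coe.comp (measurable_pi_apply (b k))
  le _ := Eventually.of_forall fun _ => val_le _
  orth _ _ hij := fur_two hf ha hμ fun h => hij (hb h)

end Pool.Agent.L5helper73.RM
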