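import Mathlib

/-!
# The Rademacher-Menshov theorem
-/

set_option autoImplicit false

namespace Pool.Agent.L5helper73.RM

open MeasureTheory Finset Filter Topology

/-- the sum over the block of length `n` which starts at `s` -/
def bs (u : ℕ → ℝ) (s n : ℕ) : ℝ := ∑ i ∈ range n, u (s + i)

/-- the sum of the squares of the sums over the dyadic blocks of length `2 ^ l` in `[s, s + 2 ^ k)` -/
def Q (u : ℕ → ℝ) (s k l : ℕ) : ℝ := ∑ m ∈ range (2 ^ (k - l)), (bs u (s + m * 2 ^ l) (2 ^ l)) ^ 2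

/-- a majorant for the squares of all the sums over `[s, s + j)`, `j < 2 ^ k` -/
def M (u : ℕ → ℝ) (s k : ℕ) : ℝ := k * ∑ l ∈ range k, Q u s k l

theorem bs_add (u : ℕ → ℝ) (s m n : ℕ) : bs u s (m + n) = bs u s m + bs u (s + m) n := by
  unfold bs
  rw [sum_range_add]
  congr 1
  exact sum_congr rfl fun i _ => by rw [add_assoc]

theorem Q_nonneg (u : ℕ → ℝ) (s k l : ℕ) : 0 ≤ Q u s k l := sum_nonneg fun _ _ => sq_nonneg _

theorem Q_succ (u : ℕ → ℝ) (s : ℕ) {k l : ℕ} (h : l ≤ k) :
    Q u s (k + 1) l = Q u s k l + Q u (s + 2 ^ k) k l := by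
  unfold Q
  rw [show k + 1 - l = (k - l) + 1 by omega, pow_succ, mul_two, sum_range_add]
  congr 1
  refine sum_congr rfl fun m _ => ?_
  have : s + (2 ^ (k - l) + m) * 2 ^ l = s + 2 ^ k + m * 2 ^ l := by
    rw [add_mul, ← pow_add, Nat.sub_add_cancel h]
    ring
  rw [this]

theorem abs_bs_le (u : ℕ → ℝ) (k : ℕ) : ∀ (s j : ℕ), j < 2 ^ k →
    |bs u s j| ≤ ∑ l ∈ range k, √(Q u s k l) := by
  induction k with
  | zero =>
    intro s j hj
    have : j = 0 := by simpa using hj
    subst this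
    simp [bs]
  | succ k ih =>
    intro s j hj
    rw [sum_range_succ]
    rcases lt_or_ge j (2 ^ k) with h | h
    · have h1 := ih s j h
      have h2 : ∑ l ∈ range k, √(Q u s k l) ≤ ∑ l ∈ range k, √(Q u s (k + 1) l) := by
        refine sum_le_sum fun l hl => Real.sqrt_le_sqrt ?_
        rw [Q_succ u s (mem_range.1 hl).le]
        linarith [Q_nonneg u (s + 2 ^ k) k l]
      have h3 := Real.sqrt_nonneg (Q u s (k + 1) k)
      linarith
    · obtain ⟨i, rfl⟩ := Nat.exists_eq_add_of_le h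
      have hi : i < 2 ^ k := by
        rw [pow_succ] at hj
        omega
      rw [bs_add]
      have h1 := ih (s + 2 ^ k) i hi
      have h2 : ∑ l ∈ range k, √(Q u (s + 2 ^ k) k l) ≤ ∑ l ∈ range k, √(Q u s (k + 1) l) := by
        refine sum_le_sum fun l hl => Real.sqrt_le_sqrt ?_
        rw [Q_succ u s (mem_range.1 hl).le]
        linarith [Q_nonneg u s k l]
      have h3 : |bs u s (2 ^ k)| ≤ √(Q u s (k + 1) k) := by
        refine Real.le_sqrt_of_sq_le ?_
        rw [Q_succ u s le_rfl, sq_abs]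
        have h4 : Q u s k k = (bs u s (2 ^ k)) ^ 2 := by
          unfold Q
          simp
        rw [h4]
        linarith [Q_nonneg u (s + 2 ^ k) k k]
      have h5 := abs_add_le (bs u s (2 ^ k)) (bs u (s + 2 ^ k) i)
      linarith

theorem sq_bs_le (u : ℕ → ℝ) (s k j : ℕ) (hj : j < 2 ^ k) : (bs u s j) ^ 2 ≤ M u s k := by
  have h1 := abs_bs_le u k s j hj
  have h2 : (bs u s j) ^ 2 ≤ (∑ l ∈ range k, √(Q u s k l)) ^ 2 := by
    rw [← sq_abs]
    exact pow_le_pow_left₀ (abs_nonneg _) h1 2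
  refine h2.trans ?_
  have h3 := sq_sum_le_card_mul_sum_sq (s := range k) (f := fun l => √(Q u s k l))
  rw [card_range] at h3
  refine h3.trans (le_of_eq ?_)
  unfold M
  congr 1
  exact sum_congr rfl fun l _ => Real.sq_sqrt (Q_nonneg u s k l)

theorem M_nonneg (u : ℕ → ℝ) (s k : ℕ) : 0 ≤ M u s k :=
  mul_nonneg (Nat.cast_nonneg k) (sum_nonneg fun _ _ => Q_nonneg _ _ _ _)

/-- the sum of a sequence over the dyadic blocks -/
theorem sum_blocks (v : ℕ → ℝ) (s : ℕ) {k l : ℕ} (h : l ≤ k) :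
    ∑ m ∈ range (2 ^ (k - l)), bs v (s + m * 2 ^ l) (2 ^ l) = bs v s (2 ^ k) := by
  have key : ∀ n, ∑ m ∈ range n, bs v (s + m * 2 ^ l) (2 ^ l) = bs v s (n * 2 ^ l) := by
    intro n
    induction n with
    | zero => simp [bs]
    | succ n ih => rw [sum_range_succ, ih, add_mul, one_mul, bs_add]
  rw [key, ← pow_add, Nat.sub_add_cancel h]

/-- convergence of a sequence which is controlled on dyadic blocks -/
theorem converges (S D V : ℕ → ℝ) (hD : ∀ k, D k = S (2 ^ (k + 1)) - S (2 ^ k))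
    (hV : ∀ k j, j < 2 ^ k → (S (2 ^ k + j) - S (2 ^ k)) ^ 2 ≤ V k)
    (hsum : Summable fun k : ℕ => ((k : ℝ) + 1) ^ 2 * (D k) ^ 2 + V k) :
    ∃ L, Tendsto S atTop (𝓝 L) := by
  have hV0 : ∀ k, 0 ≤ V k := fun k => by
    have := hV k 0 (by positivity)
    simpa using this
  have h1 : Summable V := by
    refine Summable.of_nonneg_of_le hV0 (fun k => ?_) hsum
    have : 0 ≤ ((k : ℝ) + 1) ^ 2 * (D k) ^ 2 := by positivity
    linarith
  have h2 : Summable D := by
    have h3 : Summable fun k : ℕ => 1 / ((k : ℝ) + 1) ^ 2 := by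
      have := (summable_nat_add_iff 1).2 (Real.summable_one_div_nat_pow.2 (by norm_num : 1 < 2))
      exact_mod_cast this
    refine Summable.of_norm_bounded (g := fun k : ℕ => (((k : ℝ) + 1) ^ 2 * (D k) ^ 2 + V k) +
      1 / ((k : ℝ) + 1) ^ 2) (hsum.add h3) fun k => ?_
    rw [Real.norm_eq_abs]
    have h4 : (0 : ℝ) < (k : ℝ) + 1 := by positivity
    have h5 : |D k| = (((k : ℝ) + 1) * |D k|) * (1 / ((k : ℝ) + 1)) := by
      field_simp
    have h6 : (((k : ℝ) + 1) * |D k|) * (1 / ((k : ℝ) + 1)) ≤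
        (((k : ℝ) + 1) * |D k|) ^ 2 + (1 / ((k : ℝ) + 1)) ^ 2 := by
      nlinarith [sq_nonneg ((((k : ℝ) + 1) * |D k|) - (1 / ((k : ℝ) + 1))),
        sq_nonneg (((k : ℝ) + 1) * |D k|), sq_nonneg (1 / ((k : ℝ) + 1))]
    rw [mul_pow, sq_abs, one_div, inv_pow] at h6
    rw [← one_div, ← one_div] at h6
    have h7 := hV0 k
    rw [h5]
    linarith
  have h8 : ∀ n, S (2 ^ n) = S 1 + ∑ k ∈ range n, D k := by
    intro n
    induction n with
    | zero => simp
    | succ n ih => rw [sum_range_succ, hD]; linarith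
  refine ⟨S 1 + ∑' k, D k, ?_⟩
  have h9 : Tendsto (fun n => S (2 ^ n)) atTop (𝓝 (S 1 + ∑' k, D k)) := by
    simp_rw [h8]
    exact tendsto_const_nhds.add h2.hasSum.tendsto_sum_nat
  have hlog : Tendsto (fun n => Nat.log 2 n) atTop atTop := by
    refine tendsto_atTop.2 fun b => ?_
    filter_upwards [eventually_ge_atTop (2 ^ b)] with n hn
    exact Nat.le_log_of_pow_le (by norm_num) hn
  have h10 : Tendsto (fun n => S (2 ^ Nat.log 2 n)) atTop (𝓝 (S 1 + ∑' k, D k)) := h9.comp hlog
  have h11 : Tendsto (fun n => √(V (Nat.log 2 n))) atTop (𝓝 0) := by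
    have := (Real.continuous_sqrt.tendsto 0).comp (h1.tendsto_atTop_zero.comp hlog)
    rw [Real.sqrt_zero] at this
    exact this
  have h12 : Tendsto (fun n => S n - S (2 ^ Nat.log 2 n)) atTop (𝓝 0) := by
    refine squeeze_zero_norm' ?_ h11
    filter_upwards [eventually_ge_atTop 1] with n hn
    have h13 : 2 ^ Nat.log 2 n ≤ n := Nat.pow_log_le_self 2 (by omega)
    have h14 : n < 2 ^ (Nat.log 2 n + 1) := Nat.lt_pow_succ_log_self (by norm_num) n
    obtain ⟨j, hj⟩ := Nat.exists_eq_add_of_le h13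
    have hj' : j < 2 ^ Nat.log 2 n := by
      rw [pow_succ] at h14
      omega
    rw [Real.norm_eq_abs]
    refine Real.le_sqrt_of_sq_le ?_
    rw [sq_abs]
    have := hV _ j hj'
    rwa [← hj] at this
  have := h12.add h10
  simpa using this

/-- Kronecker's lemma -/
theorem kronecker (x B : ℕ → ℝ) (hB : Monotone B) (hB0 : ∀ n, 0 < B n) (hBt : Tendsto B atTop atTop)
    {t : ℝ} (h : Tendsto (fun N => ∑ j ∈ range N, x j / B j) atTop (𝓝 t)) :
    Tendsto (fun N => (∑ j ∈ range N, x j) / B N) atTop (𝓝 0) := by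
  set T : ℕ → ℝ := fun N => ∑ j ∈ range N, x j / B j with hT
  have h1 : ∀ N, ∑ j ∈ range N, x j = B N * (T N - t) - B 0 * (T 0 - t) -
      ∑ j ∈ range N, (B (j + 1) - B j) * (T (j + 1) - t) := by
    intro N
    induction N with
    | zero => simp
    | succ N ih =>
      rw [sum_range_succ, sum_range_succ, ih]
      have h2 : T (N + 1) = T N + x N / B N := by
        rw [hT]
        exact sum_range_succ _ _
      have h3 : x N = B N * (T (N + 1) - T N) := by
        rw [h2]
        field_simp [(hB0 N).ne']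
        ring
      rw [h3]
      ring
  have h4 : (fun N => ∑ j ∈ range N, (B (j + 1) - B j) * (T (j + 1) - t)) =o[atTop]
      fun N => ∑ j ∈ range N, (B (j + 1) - B j) := by
    refine Asymptotics.IsLittleO.sum_range ?_ (fun n => sub_nonneg.2 (hB (Nat.le_succ n))) ?_
    · have h5 : Tendsto (fun j => T (j + 1) - t) atTop (𝓝 0) := by
        have := ((tendsto_add_atTop_iff_nat 1).2 h).sub_const t
        simpa using this
      have h6 := (Asymptotics.isBigO_refl (fun j => B (j + 1) - B j) atTop).mul_isLittleO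
        ((Asymptotics.isLittleO_one_iff ℝ).2 h5)
      simpa using h6
    · have h7 : (fun N => ∑ j ∈ range N, (B (j + 1) - B j)) = fun N => B N - B 0 := by
        funext N
        exact Finset.sum_range_sub B N
      rw [h7]
      exact tendsto_atTop_add_const_right _ _ hBt
  have h7 : (fun N => ∑ j ∈ range N, (B (j + 1) - B j)) = fun N => B N - B 0 := by
    funext N
    exact Finset.sum_range_sub B N
  rw [h7] at h4
  have h8 : (fun N => B N - B 0) =O[atTop] B := by
    refine Asymptotics.IsBigO.of_bound 1 (Eventually.of_forall fun N => ?_)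
    rw [one_mul, Real.norm_eq_abs, Real.norm_eq_abs, abs_of_nonneg (sub_nonneg.2 (hB (Nat.zero_le N))),
      abs_of_pos (hB0 N)]
    linarith [hB0 0]
  have h9 := (h4.trans_isBigO h8).tendsto_div_nhds_zero
  have h10 : Tendsto (fun N => T N - t) atTop (𝓝 0) := by
    have := h.sub_const t
    simpa using this
  have h11 : Tendsto (fun N => B 0 * (T 0 - t) / B N) atTop (𝓝 0) :=
    tendsto_const_nhds.div_atTop hBt
  have h12 : (fun N => (∑ j ∈ range N, x j) / B N) = fun N => (T N - t) - B 0 * (T 0 - t) / B N -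
      (∑ j ∈ range N, (B (j + 1) - B j) * (T (j + 1) - t)) / B N := by
    funext N
    rw [h1 N, sub_div, sub_div, mul_div_cancel_left₀ _ (hB0 N).ne']
  rw [h12]
  simpa using (h10.sub h11).sub h9

end Pool.Agent.L5helper73.RM
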