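import Pool.Agent.L5helper73.RM.Max

/-!
# The Rademacher-Menshov theorem for bounded orthogonal random variables
-/

set_option autoImplicit false

namespace Pool.Agent.L5helper73.RM

open MeasureTheory Finset Filter Topology

/-- nonnegative functions with summable integrals have almost everywhere a finite sum -/
theorem ae_summable {Ω : Type*} [MeasurableSpace Ω] {P : Measure Ω} (W : ℕ → Ω → ℝ)
    (hi : ∀ k, Integrable (W k) P) (h0 : ∀ k ω, 0 ≤ W k ω) (hs : Summable fun k => ∫ ω, W k ω ∂P) :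
    ∀ᵐ ω ∂P, Summable fun k => W k ω := by
  have h1 : ∫⁻ ω, ∑' k, ENNReal.ofReal (W k ω) ∂P ≠ ⊤ := by
    rw [lintegral_tsum fun k => (hi k).aestronglyMeasurable.aemeasurable.ennreal_ofReal]
    have h2 : ∀ k, ∫⁻ ω, ENNReal.ofReal (W k ω) ∂P = ENNReal.ofReal (∫ ω, W k ω ∂P) := fun k =>
      (ofReal_integral_eq_lintegral_ofReal (hi k) (Eventually.of_forall (h0 k))).symm
    simp_rw [h2]
    rw [← ENNReal.ofReal_tsum_of_nonneg (fun k => integral_nonneg (h0 k)) hs]
    exact ENNReal.ofReal_ne_top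
  have h3 := ae_lt_top' (AEMeasurable.tsum fun k =>
    (hi k).aestronglyMeasurable.aemeasurable.ennreal_ofReal) h1
  filter_upwards [h3] with ω hω
  have h4 : Summable fun k => (ENNReal.ofReal (W k ω)).toReal := ENNReal.summable_toReal hω.ne
  exact h4.congr fun k => ENNReal.toReal_ofReal (h0 k ω)

variable {Ω : Type*} [MeasurableSpace Ω] {P : Measure Ω} [IsProbabilityMeasure P] {Y : ℕ → Ω → ℝ}

/-- measurable functions, bounded by one, pairwise orthogonal -/
structure Orth (P : Measure Ω) (Y : ℕ → Ω → ℝ) : Prop where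
  meas : ∀ j, Measurable (Y j)
  le : ∀ j, ∀ᵐ ω ∂P, |Y j ω| ≤ 1
  orth : ∀ i j, i ≠ j → ∫ ω, Y i ω * Y j ω ∂P = 0

theorem Orth.integrable_mul (h : Orth P Y) (i j : ℕ) : Integrable (fun ω => Y i ω * Y j ω) P := by
  refine Integrable.of_bound ((h.meas i).mul (h.meas j)).aestronglyMeasurable 1 ?_
  filter_upwards [h.le i, h.le j] with ω hi hj
  rw [Real.norm_eq_abs, abs_mul]
  exact mul_le_one₀ hi (abs_nonneg _) hj

omit [IsProbabilityMeasure P] in
theorem Orth.integral_mul_le (h : Orth P Y) (i j : ℕ) :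
    ∫ ω, Y i ω * Y j ω ∂P = if i = j then ∫ ω, Y i ω * Y i ω ∂P else 0 := by
  split_ifs with hij
  · rw [hij]
  · exact h.orth i j hij

theorem Orth.integral_self_le (h : Orth P Y) (i : ℕ) : ∫ ω, Y i ω * Y i ω ∂P ≤ 1 := by
  have h1 : ∫ ω, Y i ω * Y i ω ∂P ≤ ∫ _ : Ω, (1 : ℝ) ∂P := by
    refine integral_mono_ae (h.integrable_mul i i) (integrable_const 1) ?_
    filter_upwards [h.le i] with ω hi
    have : Y i ω * Y i ω = |Y i ω| ^ 2 := by rw [sq_abs]; ring
    change Y i ω * Y i ω ≤ 1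
    rw [this]
    exact pow_le_one₀ (abs_nonneg _) hi
  simpa using h1

theorem Orth.bs_sq (h : Orth P Y) (c : ℕ → ℝ) (a n : ℕ) :
    Integrable (fun ω => (bs (fun i => c i * Y i ω) a n) ^ 2) P ∧
      ∫ ω, (bs (fun i => c i * Y i ω) a n) ^ 2 ∂P ≤ bs (fun i => c i ^ 2) a n := by
  have e : (fun ω => (bs (fun i => c i * Y i ω) a n) ^ 2) = fun ω =>
      ∑ i ∈ range n, ∑ j ∈ range n, (c (a + i) * c (a + j)) * (Y (a + i) ω * Y (a + j) ω) := by
    funext ω
    unfold bs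
    rw [sq, sum_mul_sum]
    exact sum_congr rfl fun i _ => sum_congr rfl fun j _ => by ring
  have hi : ∀ i j, Integrable (fun ω => (c (a + i) * c (a + j)) * (Y (a + i) ω * Y (a + j) ω)) P :=
    fun i j => (h.integrable_mul _ _).const_mul _
  rw [e]
  refine ⟨integrable_finsetSum _ fun i _ => integrable_finsetSum _ fun j _ => hi i j, ?_⟩
  rw [integral_finsetSum _ fun i _ => integrable_finsetSum _ fun j _ => hi i j]
  unfold bs
  refine sum_le_sum fun i hi' => ?_
  rw [integral_finsetSum _ fun j _ => hi i j]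
  have h1 : ∀ j ∈ range n, ∫ ω, (c (a + i) * c (a + j)) * (Y (a + i) ω * Y (a + j) ω) ∂P =
      if i = j then c (a + i) ^ 2 * ∫ ω, Y (a + i) ω * Y (a + i) ω ∂P else 0 := by
    intro j _
    rw [integral_const_mul, h.integral_mul_le]
    by_cases hij : i = j
    · subst hij
      rw [if_pos rfl, if_pos rfl]
      ring
    · rw [if_neg hij, if_neg (by omega), mul_zero]
  rw [sum_congr rfl h1, sum_ite_eq, if_pos hi']
  have h2 := h.integral_self_le (a + i)
  have h3 := sq_nonneg (c (a + i))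
  nlinarith

theorem Orth.M_le (h : Orth P Y) (c : ℕ → ℝ) (s k : ℕ) :
    Integrable (fun ω => M (fun i => c i * Y i ω) s k) P ∧
      ∫ ω, M (fun i => c i * Y i ω) s k ∂P ≤ (k : ℝ) ^ 2 * bs (fun i => c i ^ 2) s (2 ^ k) := by
  have hQ : ∀ l, Integrable (fun ω => Q (fun i => c i * Y i ω) s k l) P := fun l =>
    integrable_finsetSum _ fun m _ => (h.bs_sq c _ _).1
  have hQ' : ∀ l ∈ range k, ∫ ω, Q (fun i => c i * Y i ω) s k l ∂P ≤
      bs (fun i => c i ^ 2) s (2 ^ k) := by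
    intro l hl
    unfold Q
    rw [integral_finsetSum _ fun m _ => (h.bs_sq c _ _).1,
      ← sum_blocks (fun i => c i ^ 2) s (mem_range.1 hl).le]
    exact sum_le_sum fun m _ => (h.bs_sq c _ _).2
  refine ⟨(integrable_finsetSum _ fun l _ => hQ l).const_mul _, ?_⟩
  unfold M
  rw [integral_const_mul, integral_finsetSum _ fun l _ => hQ l]
  have h1 := sum_le_sum hQ'
  rw [sum_const, card_range, nsmul_eq_mul] at h1
  have h2 := mul_le_mul_of_nonneg_left h1 (Nat.cast_nonneg (α := ℝ) k)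
  rw [sq, mul_assoc]
  exact h2

theorem bs_mono {u v : ℕ → ℝ} (s n : ℕ) (h : ∀ i, s ≤ i → u i ≤ v i) : bs u s n ≤ bs v s n :=
  sum_le_sum fun i _ => h _ (Nat.le_add_right s i)

theorem sum_bs_dyadic (v : ℕ → ℝ) (K : ℕ) :
    ∑ k ∈ range K, bs v (2 ^ k) (2 ^ k) = bs v 1 (2 ^ K - 1) := by
  induction K with
  | zero => simp [bs]
  | succ K ih =>
    rw [sum_range_succ, ih, show 2 ^ (K + 1) - 1 = (2 ^ K - 1) + 2 ^ K by
      have := Nat.one_le_two_pow (n := K)
      rw [pow_succ]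
      omega, bs_add]
    congr 2
    have := Nat.one_le_two_pow (n := K)
    omega

theorem summable_blocks {c : ℕ → ℝ} (hc : Summable fun j : ℕ => c j ^ 2 * (Real.log (j + 2)) ^ 2) :
    Summable fun k : ℕ => ((k : ℝ) + 1) ^ 2 * bs (fun i => c i ^ 2) (2 ^ k) (2 ^ k) := by
  set w : ℕ → ℝ := fun j : ℕ => c j ^ 2 * (Real.log (j + 2)) ^ 2 with hw
  have hw0 : ∀ j, 0 ≤ w j := fun j => by positivity
  have hlog2 : 0 < Real.log 2 := Real.log_pos (by norm_num)
  have h1 : ∀ k : ℕ, ((k : ℝ) + 1) ^ 2 * bs (fun i => c i ^ 2) (2 ^ k) (2 ^ k) ≤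
      (4 / (Real.log 2) ^ 2) * bs w (2 ^ k) (2 ^ k) := by
    intro k
    unfold bs
    rw [mul_sum, mul_sum]
    refine sum_le_sum fun i _ => ?_
    have h2 : ((k : ℝ) + 1) * Real.log 2 ≤ 2 * Real.log ((2 ^ k + i : ℕ) + 2) := by
      have h3 : (k : ℝ) * Real.log 2 ≤ Real.log ((2 ^ k + i : ℕ) + 2) := by
        rw [← Real.log_pow]
        refine Real.log_le_log (by positivity) ?_
        push_cast
        linarith [Nat.cast_nonneg (α := ℝ) i]
      have h4 : Real.log 2 ≤ Real.log ((2 ^ k + i : ℕ) + 2) := by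
        refine Real.log_le_log (by norm_num) ?_
        linarith [Nat.cast_nonneg (α := ℝ) (2 ^ k + i)]
      linarith
    have h5 : (((k : ℝ) + 1) * Real.log 2) ^ 2 ≤ (2 * Real.log ((2 ^ k + i : ℕ) + 2)) ^ 2 :=
      pow_le_pow_left₀ (by positivity) h2 2
    rw [hw]
    simp only
    rw [div_mul_eq_mul_div, le_div_iff₀ (by positivity)]
    have h6 := mul_le_mul_of_nonneg_left h5 (sq_nonneg (c (2 ^ k + i)))
    nlinarith
  have h7 : Summable fun k : ℕ => bs w (2 ^ k) (2 ^ k) := by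
    refine summable_of_sum_range_le (c := ∑' j, w j) (fun k => sum_nonneg fun _ _ => hw0 _) fun K => ?_
    rw [sum_bs_dyadic]
    unfold bs
    have h8 : ∑ i ∈ range (2 ^ K - 1), w (1 + i) = ∑ i ∈ (range (2 ^ K - 1)).map
        (addLeftEmbedding 1), w i := by
      rw [sum_map]
      rfl
    rw [h8]
    exact hc.sum_le_tsum _ fun i _ => hw0 i
  refine Summable.of_nonneg_of_le (fun k => ?_) h1 (h7.mul_left _)
  refine mul_nonneg (by positivity) (sum_nonneg fun _ _ => sq_nonneg _)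

/-- **Rademacher-Menshov** -/
theorem Orth.ae_tendsto (h : Orth P Y) {c : ℕ → ℝ}
    (hc : Summable fun j : ℕ => c j ^ 2 * (Real.log (j + 2)) ^ 2) :
    ∀ᵐ ω ∂P, ∃ L, Tendsto (fun N => ∑ j ∈ range N, c j * Y j ω) atTop (𝓝 L) := by
  let W : ℕ → Ω → ℝ := fun k ω =>
    ((k : ℝ) + 1) ^ 2 * (bs (fun i => c i * Y i ω) (2 ^ k) (2 ^ k)) ^ 2 +
      M (fun i => c i * Y i ω) (2 ^ k) k
  have hi : ∀ k, Integrable (W k) P := fun k =>
    ((h.bs_sq c _ _).1.const_mul _).add (h.M_le c _ _).1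
  have h0 : ∀ k ω, 0 ≤ W k ω := fun k ω => add_nonneg (by positivity) (M_nonneg _ _ _)
  have hs : Summable fun k => ∫ ω, W k ω ∂P := by
    have h1 := (summable_blocks hc).mul_left 2
    refine Summable.of_nonneg_of_le (fun k => integral_nonneg (h0 k)) (fun k => ?_) h1
    have h2 : ∫ ω, W k ω ∂P = ((k : ℝ) + 1) ^ 2 *
        ∫ ω, (bs (fun i => c i * Y i ω) (2 ^ k) (2 ^ k)) ^ 2 ∂P +
          ∫ ω, M (fun i => c i * Y i ω) (2 ^ k) k ∂P := by
      rw [integral_add ((h.bs_sq c _ _).1.const_mul _) (h.M_le c _ _).1, integral_const_mul]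
    rw [h2]
    have h3 := (h.bs_sq c (2 ^ k) (2 ^ k)).2
    have h4 := (h.M_le c (2 ^ k) k).2
    have h5 : 0 ≤ bs (fun i => c i ^ 2) (2 ^ k) (2 ^ k) := sum_nonneg fun _ _ => sq_nonneg _
    have h6 : (0 : ℝ) ≤ k := Nat.cast_nonneg k
    have h7 := mul_le_mul_of_nonneg_left h3 (by positivity : (0 : ℝ) ≤ ((k : ℝ) + 1) ^ 2)
    nlinarith
  filter_upwards [ae_summable W hi h0 hs] with ω hω
  refine converges (fun N => ∑ j ∈ range N, c j * Y j ω)
    (fun k => bs (fun i => c i * Y i ω) (2 ^ k) (2 ^ k))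
    (fun k => M (fun i => c i * Y i ω) (2 ^ k) k) (fun k => ?_) (fun k j hj => ?_) hω
  · rw [pow_succ, mul_two, sum_range_add]
    unfold bs
    ring
  · rw [sum_range_add]
    have := sq_bs_le (fun i => c i * Y i ω) (2 ^ k) k j hj
    unfold bs at this
    rw [add_sub_cancel_left]
    exact this

/-- the strong law -/
theorem Orth.ae_law (h : Orth P Y) {c B : ℕ → ℝ} (hB : Monotone B) (hB0 : ∀ n, 0 < B n)
    (hBt : Tendsto B atTop atTop)
    (hc : Summable fun j : ℕ => (c j / B j) ^ 2 * (Real.log (j + 2)) ^ 2) :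
    ∀ᵐ ω ∂P, Tendsto (fun N => (∑ j ∈ range N, c j * Y j ω) / B N) atTop (𝓝 0) := by
  filter_upwards [h.ae_tendsto hc] with ω hω
  obtain ⟨L, hL⟩ := hω
  refine kronecker (fun j => c j * Y j ω) B hB hB0 hBt (t := L) ?_
  refine hL.congr fun N => sum_congr rfl fun j _ => by ring

end Pool.Agent.L5helper73.RM
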